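import Pool.Agent.Lib.MP_0d8a84_pr.Main

set_option autoImplicit false

open MeasureTheory Filter Topology

namespace Pool.Agent.Results.MP_0d8a84_pr.CubicThreshold

open Pool.Agent.Lib.MP_0d8a84_pr in
/-- Polluted bootstrap percolation on `ℤ³` with threshold three: states `0`, `1`, `2` mean
occupied, closed, empty, and `A ω t` is the set of occupied sites at time `t`. If `p, q → 0` and
`p ^ 3 / q → 0`, the probability that the origin is eventually occupied tends to `0`. -/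
theorem result (p q : ℕ → ℝ) (hp0 : ∀ n, 0 < p n) (hq0 : ∀ n, 0 < q n)
    (hp : Tendsto p atTop (𝓝 0)) (hq : Tendsto q atTop (𝓝 0))
    (hpq : Tendsto (fun n => p n ^ 3 / q n) atTop (𝓝 0))
    (μ : ℕ → Measure (Fin 3)) [∀ n, IsProbabilityMeasure (μ n)]
    (h0 : ∀ n, μ n {0} = ENNReal.ofReal (p n)) (h1 : ∀ n, μ n {1} = ENNReal.ofReal (q n))
    (A : (ℤ × ℤ × ℤ → Fin 3) → ℕ → Set (ℤ × ℤ × ℤ))
    (hA0 : ∀ ω, A ω 0 = {x | ω x = 0})
    (hA : ∀ ω t, A ω (t + 1) = A ω t ∪ {x | ω x = 2 ∧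
      3 ≤ {y ∈ A ω t | |x.1 - y.1| + |x.2.1 - y.2.1| + |x.2.2 - y.2.2| = 1}.ncard}) :
    Tendsto (fun n => Measure.infinitePi (fun _ : ℤ × ℤ × ℤ => μ n)
      {ω | ∃ t, (0 : ℤ × ℤ × ℤ) ∈ A ω t}) atTop (𝓝 0) := by
  classical
  have key : ∀ ω t, A ω t ⊆ Occ ω t := by
    intro ω t
    induction t with
    | zero => rw [hA0]; exact fun x hx => hx
    | succ t ih =>
      rw [hA]
      rintro x (hx | ⟨h2, h3⟩)
      · exact Or.inl (ih hx)
      · refine Or.inr ⟨by rw [h2]; decide, h3.trans ?_⟩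
        rw [← Set.ncard_coe_finset]
        refine Set.ncard_le_ncard (fun y hy => ?_) (Finset.finite_toSet _)
        rw [Finset.coe_filter]
        exact ⟨mem_nb.2 hy.2, ih hy.1⟩
  refine tendsto_of_tendsto_of_tendsto_of_le_of_le tendsto_const_nhds
    (tendsto_density p q hp0 hq0 hp hq hpq μ h0 h1) (fun _ => zero_le)
    fun n => measure_mono fun ω ⟨t, ht⟩ => ⟨t, key ω t ht⟩

end Pool.Agent.Results.MP_0d8a84_pr.CubicThreshold
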